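import Pool.Agent.W117.GS.Stm

/-!
# Project GS (helper117), part EX: monotone iteration
-/

set_option autoImplicit false

open scoped ContDiff
open MeasureTheory Filter Topology Set

noncomputable section

namespace Pool.Agent.W101.GS

open Pool.Agent.Helper676.CS (lap Gc Gc_mono Gc_const Gc_tendsto)
open Pool.Agent.W117.GS

/-- the iteration -/
def it (K m : ℝ) (F : U3 × ℝ → ℝ) (U : ℝ × ℝ → U3) : ℕ → ℝ × ℝ → ℝ
  | 0 => fun _ => m
  | k + 1 => Gc K (fun y => K * it K m F U k y + F (U y, it K m F U k y))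

lemma CB_of_succ {V : Type} [NormedAddCommGroup V] [NormedSpace ℝ V] {n : ℕ} {f : ℝ × ℝ → V}
    (h : CB (n + 1) f) : CB n f :=
  ⟨h.1.of_le (by exact_mod_cast Nat.le_succ n), fun i hi => h.2 i (Nat.le_succ_of_le hi)⟩

lemma CB_const {V : Type} [NormedAddCommGroup V] [NormedSpace ℝ V] (n : ℕ) (c : V) :
    CB n (fun _ : ℝ × ℝ => c) := by
  refine ⟨contDiff_const, fun i _ => ⟨‖c‖, fun x => ?_⟩⟩
  rcases Nat.eq_zero_or_pos i with rfl | hi
  · simp
  · rw [iteratedFDeriv_const_of_ne hi.ne']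
    simp

theorem main (_hG1 : PropG1) (hG2 : PropG2) (hG3 : PropG3) (hCO : PropCO) (hPA : PropPA)
    (hKE : PropKE) (hMP : PropMP) (hRG : PropRG) : PropEX := by
  intro F U m M W hF hU hW hmW hWM hFm hFW
  obtain ⟨R, hR⟩ := (hU 0).2 0 le_rfl
  have hR' : ∀ x, ‖U x‖ ≤ R := by
    intro x
    have := hR x
    rwa [norm_iteratedFDeriv_zero] at this
  obtain ⟨K, hK, hmono⟩ := hKE F R m M hF
  have hmM : m ≤ M := (hmW 0).trans (hWM 0)
  -- the nonlinearity
  set Ψ : U3 × ℝ → ℝ := fun q => K * q.2 + F q with hΨ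
  have hΨs : ContDiff ℝ ∞ Ψ := (contDiff_const.mul contDiff_snd).add hF
  have hΨc : Continuous Ψ := hΨs.continuous
  have hUc : Continuous U := (hU 0).1.continuous
  obtain ⟨C, hC⟩ := ((isCompact_closedBall (0 : U3) R).prod
    (isCompact_Icc (a := m) (b := M))).exists_bound_of_continuousOn hΨc.continuousOn
  have hC' : ∀ w : ℝ × ℝ → ℝ, (∀ x, m ≤ w x ∧ w x ≤ W x) → ∀ y, |K * w y + F (U y, w y)| ≤ C := by
    intro w hw y
    have := hC (U y, w y) ⟨by simpa using hR' y, (hw y).1, (hw y).2.trans (hWM y)⟩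
    simpa [hΨ] using this
  have hmeasΦ : ∀ w : ℝ × ℝ → ℝ, Measurable w → Measurable (fun y => K * w y + F (U y, w y)) := by
    intro w hw
    have : Measurable (fun y => Ψ (U y, w y)) :=
      hΨc.measurable.comp (hUc.measurable.prodMk hw)
    exact this
  have hCBΦ : ∀ (w : ℝ × ℝ → ℝ) (n : ℕ), CB n w → CB n (fun y => K * w y + F (U y, w y)) := by
    intro w n hw
    exact hCO (U3 × ℝ) ℝ n Ψ (fun y => (U y, w y)) hΨs (hPA U3 ℝ n U w (hU n) hw)
  -- the invariant
  have hstep : ∀ w : ℝ × ℝ → ℝ, (∀ n, CB n w) → (∀ x, m ≤ w x ∧ w x ≤ W x) →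
      (∀ n, CB n (Gc K (fun y => K * w y + F (U y, w y)))) ∧
      ∀ x, m ≤ Gc K (fun y => K * w y + F (U y, w y)) x ∧
        Gc K (fun y => K * w y + F (U y, w y)) x ≤ W x := by
    intro w hw hb
    have hwc : Continuous w := (hw 0).1.continuous
    have hCBn : ∀ n, CB n (Gc K (fun y => K * w y + F (U y, w y))) := fun n =>
      CB_of_succ (hG2 K n _ hK (hCBΦ w n (hw n)))
    refine ⟨hCBn, fun x => ⟨?_, ?_⟩⟩
    · have h1 := Gc_mono hK (measurable_const (a := K * m)) (hmeasΦ w hwc.measurable)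
        (fun _ => le_refl |K * m|) (hC' w hb) (fun y => by
          have h2 := hmono (U y) m (w y) (hR' y) le_rfl (hb y).1 ((hb y).2.trans (hWM y))
          have h3 := hFm y
          linarith) x
      rw [Gc_const hK, inv_mul_cancel_left₀ hK.ne'] at h1
      exact h1
    · obtain ⟨C1, hC1⟩ := (hCBn 0).2 0 le_rfl
      have hC1' : ∀ x, |Gc K (fun y => K * w y + F (U y, w y)) x| ≤ C1 := by
        intro x
        have := hC1 x
        rwa [norm_iteratedFDeriv_zero, Real.norm_eq_abs] at this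
      refine hMP K (max C1 (max |m| |M|)) _ W hK (hCBn 2).1 hW
        (fun x => (hC1' x).trans (le_max_left _ _)) (fun x => ?_) (fun x => ?_) x
      · refine le_trans ?_ (le_max_right _ _)
        exact abs_le_max_abs_abs (hmW x) (hWM x)
      · rw [hG3 K _ hK (hCBΦ w 1 (hw 1)) (hCBn 2).1 x]
        have h2 := hmono (U x) (w x) (W x) (hR' x) (hb x).1 (hb x).2 (hWM x)
        have h3 := hFW x
        linarith
  have hinv : ∀ k, (∀ n, CB n (it K m F U k)) ∧
      ∀ x, m ≤ it K m F U k x ∧ it K m F U k x ≤ W x := by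
    intro k
    induction k with
    | zero => exact ⟨fun n => CB_const n m, fun x => ⟨le_rfl, hmW x⟩⟩
    | succ k ih => exact hstep _ ih.1 ih.2
  have hmeas : ∀ k, Measurable (it K m F U k) := fun k =>
    ((hinv k).1 0).1.continuous.measurable
  have hinc : ∀ k x, it K m F U k x ≤ it K m F U (k + 1) x := by
    intro k
    induction k with
    | zero => exact fun x => ((hinv 1).2 x).1
    | succ k ih =>
      intro x
      refine Gc_mono hK (hmeasΦ _ (hmeas k)) (hmeasΦ _ (hmeas (k + 1))) (hC' _ (hinv k).2)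
        (hC' _ (hinv (k + 1)).2) (fun y => ?_) x
      exact hmono (U y) _ _ (hR' y) ((hinv k).2 y).1 (ih y)
        (((hinv (k + 1)).2 y).2.trans (hWM y))
  have hmonoK : ∀ x, Monotone (fun k => it K m F U k x) := fun x =>
    monotone_nat_of_le_succ fun k => hinc k x
  set w : ℝ × ℝ → ℝ := fun x => ⨆ k, it K m F U k x with hw
  have hlim : ∀ x, Tendsto (fun k => it K m F U k x) atTop (𝓝 (w x)) := by
    intro x
    refine tendsto_atTop_ciSup (hmonoK x) ⟨W x, ?_⟩
    rintro _ ⟨k, rfl⟩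
    exact ((hinv k).2 x).2
  have hwb : ∀ x, m ≤ w x ∧ w x ≤ W x := fun x =>
    ⟨ge_of_tendsto' (hlim x) fun k => ((hinv k).2 x).1,
      le_of_tendsto' (hlim x) fun k => ((hinv k).2 x).2⟩
  have hwm : Measurable w := measurable_of_tendsto_metrizable hmeas (tendsto_pi_nhds.2 hlim)
  have hfix : ∀ x, w x = Gc K (fun y => K * w y + F (U y, w y)) x := by
    intro x
    have h1 : Tendsto (fun k => Gc K (fun y => K * it K m F U k y + F (U y, it K m F U k y)) x)
        atTop (𝓝 (Gc K (fun y => K * w y + F (U y, w y)) x)) := by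
      refine Gc_tendsto hK (fun k => hmeasΦ _ (hmeas k)) (fun k => hC' _ (hinv k).2)
        (fun y => ?_) x
      have h2 : Tendsto (fun k => Ψ (U y, it K m F U k y)) atTop (𝓝 (Ψ (U y, w y))) := by
        refine (hΨc.tendsto _).comp ?_
        exact tendsto_const_nhds.prodMk_nhds (hlim y)
      exact h2
    have h3 : Tendsto (fun k => it K m F U (k + 1) x) atTop (𝓝 (w x)) :=
      (tendsto_add_atTop_iff_nat 1).2 (hlim x)
    exact tendsto_nhds_unique h3 h1
  obtain ⟨h1, h2⟩ := hRG K (max |m| |M|) F U w hK hF hU hwm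
    (fun x => abs_le_max_abs_abs (hwb x).1 ((hwb x).2.trans (hWM x))) hfix
  exact ⟨w, h1, fun x => (hwb x).1, fun x => (hwb x).2, h2⟩

end Pool.Agent.W101.GS
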